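import Pool.Agent.Helper67.RG.GBasic

/-! # Modules EXT and INF: closed points -/

open Pool.Agent.Helper67.RG

namespace Pool.Agent.Helper41.RG

/-- A maximal ideal of a finitely generated `ℂ`-algebra is the kernel of a closed point. -/
theorem EXT_point {O : Type} [CommRing O] [Algebra ℂ O] [Algebra.FiniteType ℂ O] (M : Ideal O)
    [hM : M.IsMaximal] : ∃ β : O →ₐ[ℂ] ℂ, RingHom.ker β = M := by
  let _ : Field (O ⧸ M) := Ideal.Quotient.field M
  have hfin : Module.Finite ℂ (O ⧸ M) := finite_of_finite_type_of_isJacobsonRing ℂ (O ⧸ M)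
  have hint : Algebra.IsIntegral ℂ (O ⧸ M) := inferInstance
  have hbij : Function.Bijective (algebraMap ℂ (O ⧸ M)) :=
    IsAlgClosed.algebraMap_bijective_of_isIntegral
  let e : ℂ ≃ₐ[ℂ] (O ⧸ M) := AlgEquiv.ofBijective (Algebra.ofId ℂ (O ⧸ M)) hbij
  refine ⟨(e.symm : (O ⧸ M) →ₐ[ℂ] ℂ).comp (Ideal.Quotient.mkₐ ℂ M), ?_⟩
  ext x
  rw [RingHom.mem_ker]
  change e.symm (Ideal.Quotient.mkₐ ℂ M x) = 0 ↔ x ∈ M
  rw [EmbeddingLike.map_eq_zero_iff]
  exact Ideal.Quotient.eq_zero_iff_mem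

/-- Two closed points with the same kernel are equal. -/
theorem EXT_unique {A : Type} [CommRing A] [Algebra ℂ A] (b b' : A →ₐ[ℂ] ℂ)
    (h : RingHom.ker b ≤ RingHom.ker b') : b = b' := by
  ext a
  have h1 : a - algebraMap ℂ A (b a) ∈ RingHom.ker b := by
    rw [RingHom.mem_ker, map_sub, AlgHom.commutes]
    simp
  have h2 := h h1
  rw [RingHom.mem_ker, map_sub, AlgHom.commutes] at h2
  exact (sub_eq_zero.mp h2).symm

theorem EXT_ker_max {A : Type} [CommRing A] [Algebra ℂ A] (b : A →ₐ[ℂ] ℂ) :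
    (RingHom.ker b).IsMaximal :=
  RingHom.ker_isMaximal_of_surjective b fun c => ⟨algebraMap ℂ A c, by simp⟩

theorem st_EXT : ST_EXT := by
  intro A _ _ _ _ O _ _ _ hinj
  have hN : IsNoetherianRing A := Algebra.FiniteType.isNoetherianRing ℂ A
  have hfp : Algebra.FinitePresentation A O := Algebra.FinitePresentation.of_finiteType.mp
    inferInstance
  obtain ⟨S, hS⟩ := PrimeSpectrum.exists_constructibleSetData_iff.mpr
    (PrimeSpectrum.isConstructible_range_comap
      (RingHom.finitePresentation_algebraMap.mpr hfp : (algebraMap A O).FinitePresentation))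
  -- the generic point
  have hgen : (⟨⊥, Ideal.isPrime_bot⟩ : PrimeSpectrum A) ∈ S.toSet := by
    rw [hS]
    obtain ⟨p', hp', hc⟩ := Ideal.exists_comap_eq_of_mem_minimalPrimes_of_injective hinj ⊥ (by
      rw [IsDomain.minimalPrimes_eq_singleton_bot]
      rfl)
    exact ⟨⟨p', hp'⟩, PrimeSpectrum.ext hc⟩
  rw [PrimeSpectrum.ConstructibleSetData.toSet, Set.mem_iUnion₂] at hgen
  obtain ⟨C, hCS, hC⟩ := hgen
  obtain ⟨hC1, hC2⟩ := hC
  have hg : ∀ i, C.g i = 0 := fun i => by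
    have h1 := hC1 (Set.mem_range_self i)
    exact h1
  have hf : C.f ≠ 0 := by
    intro h0
    refine hC2 ?_
    rw [h0]
    intro x hx
    rw [Set.mem_singleton_iff] at hx
    rw [hx]
    exact Submodule.zero_mem _
  refine ⟨C.f, hf, fun b hb => ?_⟩
  -- a prime over the kernel of `b`
  have hbm := EXT_ker_max b
  have h1 : (⟨RingHom.ker b, hbm.isPrime⟩ : PrimeSpectrum A) ∈ Set.range
      (PrimeSpectrum.comap (algebraMap A O)) := by
    rw [← hS, PrimeSpectrum.ConstructibleSetData.toSet, Set.mem_iUnion₂]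
    refine ⟨C, hCS, ?_, ?_⟩
    · rintro _ ⟨i, rfl⟩
      rw [hg i]
      exact Submodule.zero_mem _
    · intro h
      exact hb (h rfl)
  obtain ⟨Q, hQ⟩ := h1
  have hQ' : Q.asIdeal.comap (algebraMap A O) = RingHom.ker b := congrArg PrimeSpectrum.asIdeal hQ
  obtain ⟨M, hM, hQM⟩ := Ideal.exists_le_maximal Q.asIdeal Q.isPrime.ne_top
  let _ : Algebra ℂ O := ((algebraMap A O).comp (algebraMap ℂ A)).toAlgebra
  have : IsScalarTower ℂ A O := IsScalarTower.of_algebraMap_eq fun _ => rfl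
  have : Algebra.FiniteType ℂ O := Algebra.FiniteType.trans (S := A) inferInstance inferInstance
  obtain ⟨β, hβ⟩ := EXT_point M
  refine ⟨β, fun a => ?_⟩
  have h2 : b = β.comp (IsScalarTower.toAlgHom ℂ A O) := by
    refine EXT_unique _ _ ?_
    rw [← hQ']
    intro x hx
    have h3 : algebraMap A O x ∈ RingHom.ker β := by
      rw [hβ]
      exact hQM hx
    exact h3
  rw [h2]
  rfl

theorem st_INF : ST_INF := by
  intro A _ _ _ _ hfield h hh hfin
  have hJ : IsJacobsonRing A := isJacobsonRing_of_finiteType (A := ℂ)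
  have h1 : ∀ b : A →ₐ[ℂ] ℂ, ∃ a : A, a ≠ 0 ∧ b a = 0 := by
    intro b
    by_contra hc
    push Not at hc
    refine hfield ?_
    have hbij : Function.Bijective b := by
      refine ⟨?_, fun c => ⟨algebraMap ℂ A c, by simp⟩⟩
      rw [injective_iff_map_eq_zero]
      intro a ha
      by_contra h0
      exact hc a h0 ha
    exact MulEquiv.isField (Field.toIsField ℂ) (AlgEquiv.ofBijective b hbij).toMulEquiv
  choose a ha0 hab using h1
  set s := hfin.toFinset with hs
  have hp : h * ∏ b ∈ s, a b ≠ 0 := mul_ne_zero hh (Finset.prod_ne_zero_iff.mpr fun b _ => ha0 b)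
  have h2 : (⊥ : Ideal A).jacobson = ⊥ := hJ.out (Ideal.isPrime_bot.isRadical)
  have h3 : h * ∏ b ∈ s, a b ∉ (⊥ : Ideal A).jacobson := by
    rw [h2]
    exact hp
  rw [Ideal.jacobson, Submodule.mem_sInf] at h3
  push Not at h3
  obtain ⟨M, ⟨_, hM⟩, hMp⟩ := h3
  obtain ⟨β, hβ⟩ := EXT_point M
  have h4 : β (h * ∏ b ∈ s, a b) ≠ 0 := by
    intro h0
    exact hMp (hβ ▸ h0)
  rw [map_mul, map_prod] at h4
  have h5 := left_ne_zero_of_mul h4
  have h6 := right_ne_zero_of_mul h4
  refine h6 (Finset.prod_eq_zero (i := β) ?_ (hab β))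
  rw [hs, Set.Finite.mem_toFinset]
  exact h5

end Pool.Agent.Helper41.RG
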