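import Pool.Agent.Helper67.RG.GBasic

/-! # Module INJ: the relations of `ξ` are those of `x` -/

open Pool.Agent.Helper67.RG MvPolynomial

namespace Pool.Agent.Helper41.RG

theorem INJ_scale {σ R : Type} [CommRing R] [Algebra ℂ R] (ξ : σ → R) (u : R) (l : ℕ)
    (P : MvPolynomial σ ℂ) (hP : P.IsHomogeneous l) :
    aeval (fun i => ξ i * u) P = aeval ξ P * u ^ l := by
  rw [aeval_def, aeval_def, eval₂_eq, eval₂_eq, Finset.sum_mul]
  refine Finset.sum_congr rfl fun m hm => ?_
  have hd : ∑ i ∈ m.support, m i = l := by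
    have := hP (mem_support_iff.mp hm)
    rw [← this, Finsupp.weight_apply]
    simp [Finsupp.sum]
  have : ∏ i ∈ m.support, (ξ i * u) ^ m i = (∏ i ∈ m.support, ξ i ^ m i) * u ^ l := by
    rw [← hd, ← Finset.prod_pow_eq_pow_sum, ← Finset.prod_mul_distrib]
    exact Finset.prod_congr rfl fun i _ => mul_pow _ _ _
  rw [this, mul_assoc]

theorem INJ_deh {K : Type} [Field K] [Algebra ℂ K] (u v : K) (hu : u ≠ 0) (l : ℕ)
    (s : MvPolynomial (Fin 2) ℂ) (hs : s.IsHomogeneous l) :
    aeval ![u, v] s =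
      Polynomial.aeval (v / u) (aeval ![(1 : Polynomial ℂ), Polynomial.X] s) * u ^ l := by
  have h1 : (![u, v] : Fin 2 → K) = fun i => (![1, v / u] : Fin 2 → K) i * u := by
    funext i
    fin_cases i
    · simp
    · simp [hu]
  rw [h1, INJ_scale _ u l s hs]
  congr 1
  have h2 : (Polynomial.aeval (v / u) : Polynomial ℂ →ₐ[ℂ] K).comp
      (aeval ![(1 : Polynomial ℂ), Polynomial.X]) = aeval ![1, v / u] := by
    refine MvPolynomial.algHom_ext fun i => ?_
    fin_cases i
    · simp
    · simp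
  exact (AlgHom.congr_fun h2 s).symm

/-- Binary forms vanish only at proportional elements of a domain. -/
theorem INJ_binary {R S : Type} [CommRing R] [IsDomain R] [Algebra ℂ R] [CommRing S] [IsDomain S]
    [Algebra ℂ S] (x : Fin 2 → R) (ξ : Fin 2 → S) (hx0 : x 0 ≠ 0)
    (hξ : LinearIndependent ℂ ξ) (l : ℕ) (s : MvPolynomial (Fin 2) ℂ) (hs : s.IsHomogeneous l)
    (h : aeval ξ s = 0) : aeval x s = 0 := by
  by_contra hne
  set q : Polynomial ℂ := aeval ![(1 : Polynomial ℂ), Polynomial.X] s with hq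
  -- `q ≠ 0`
  have hxK : ∀ {T : Type} [CommRing T] [IsDomain T] [Algebra ℂ T] (y : Fin 2 → T),
      algebraMap T (FractionRing T) (aeval y s) =
        aeval ![algebraMap T (FractionRing T) (y 0), algebraMap T (FractionRing T) (y 1)] s := by
    intro T _ _ _ y
    have h1 : (IsScalarTower.toAlgHom ℂ T (FractionRing T)).comp (aeval y) =
        aeval ![algebraMap T (FractionRing T) (y 0), algebraMap T (FractionRing T) (y 1)] := by
      refine MvPolynomial.algHom_ext fun i => ?_
      fin_cases i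
      · simp
      · simp
    exact AlgHom.congr_fun h1 s
  have hq0 : q ≠ 0 := by
    intro h0
    have h1 := INJ_deh (algebraMap R (FractionRing R) (x 0)) (algebraMap R (FractionRing R) (x 1))
      (by
        intro h2
        exact hx0 ((map_eq_zero_iff _ (IsFractionRing.injective R (FractionRing R))).mp h2)) l s hs
    rw [← hxK, ← hq, h0, map_zero, zero_mul] at h1
    exact hne ((map_eq_zero_iff _ (IsFractionRing.injective R (FractionRing R))).mp h1)
  have hξ0 : ξ 0 ≠ 0 := hξ.ne_zero 0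
  set K := FractionRing S
  have hu : algebraMap S K (ξ 0) ≠ 0 := by
    intro h2
    exact hξ0 ((map_eq_zero_iff _ (IsFractionRing.injective S K)).mp h2)
  have h2 := INJ_deh (algebraMap S K (ξ 0)) (algebraMap S K (ξ 1)) hu l s hs
  rw [← hxK, h, map_zero] at h2
  have h3 : Polynomial.aeval (algebraMap S K (ξ 1) / algebraMap S K (ξ 0)) q = 0 := by
    rcases mul_eq_zero.mp h2.symm with h4 | h4
    · exact h4
    · exact absurd h4 (pow_ne_zero _ hu)
  have hint : IsIntegral ℂ (algebraMap S K (ξ 1) / algebraMap S K (ξ 0)) :=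
    IsAlgebraic.isIntegral ⟨q, hq0, h3⟩
  obtain ⟨c, hc⟩ := minpoly.mem_range_of_degree_eq_one ℂ
    (algebraMap S K (ξ 1) / algebraMap S K (ξ 0))
    (IsAlgClosed.degree_eq_one_of_irreducible ℂ (minpoly.irreducible hint))
  have h5 : algebraMap S K (ξ 1) = algebraMap S K (algebraMap ℂ S c * ξ 0) := by
    rw [map_mul, ← IsScalarTower.algebraMap_apply, hc, div_mul_cancel₀ _ hu]
  have h6 : ξ 1 = c • ξ 0 := by
    rw [Algebra.smul_def]
    exact IsFractionRing.injective S K h5
  have h7 := (LinearIndependent.pair_iff (R := ℂ) (x := ξ 0) (y := ξ 1)).mp (by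
    have : ![ξ 0, ξ 1] = ξ := by
      funext i
      fin_cases i <;> rfl
    rw [this]
    exact hξ) c (-1) (by rw [h6, neg_one_smul, add_neg_cancel])
  exact absurd h7.2 (by norm_num)

/-- A multiple of `c = P(x) ≠ 0` is a binary form in `x 0`, `x 1`. -/
theorem INJ_mult {R : Type} [CommRing R] [IsDomain R] [Algebra ℂ R] (x : Fin 12 → R)
    (diag : ∀ i, ∃ α β : ℂ, x i ^ 2 = α • x 0 ^ 2 + β • x 1 ^ 2) (P : MvPolynomial (Fin 12) ℂ)
    (hP : aeval x P ≠ 0) : ∃ (P' : MvPolynomial (Fin 12) ℂ) (s : MvPolynomial (Fin 2) ℂ),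
      aeval x P * aeval x P' = aeval ![x 0, x 1] s ∧ aeval ![x 0, x 1] s ≠ 0 := by
  let π : MvPolynomial (Fin 12) ℂ →ₐ[ℂ] (aeval x : MvPolynomial (Fin 12) ℂ →ₐ[ℂ] R).range :=
    (aeval x : MvPolynomial (Fin 12) ℂ →ₐ[ℂ] R).rangeRestrict
  have hπ : Function.Surjective π := AlgHom.rangeRestrict_surjective _
  have hπv : ∀ Q, (π Q : R) = aeval x Q := fun Q => rfl
  let φ : MvPolynomial (Fin 2) ℂ →ₐ[ℂ] (aeval x : MvPolynomial (Fin 12) ℂ →ₐ[ℂ] R).range :=
    aeval ![π (X 0), π (X 1)]
  have hφv : ∀ s, (φ s : R) = aeval ![x 0, x 1] s := by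
    intro s
    have h1 : ((aeval x : MvPolynomial (Fin 12) ℂ →ₐ[ℂ] R).range.val).comp φ =
        aeval ![x 0, x 1] := by
      refine MvPolynomial.algHom_ext fun i => ?_
      fin_cases i
      · change ((φ (X 0) : (aeval x : MvPolynomial (Fin 12) ℂ →ₐ[ℂ] R).range) : R) = _
        simp only [φ, aeval_X]
        change aeval x (X 0) = _
        simp
      · change ((φ (X 1) : (aeval x : MvPolynomial (Fin 12) ℂ →ₐ[ℂ] R).range) : R) = _
        simp only [φ, aeval_X]
        change aeval x (X 1) = _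
        simp
    exact AlgHom.congr_fun h1 s
  have hint : ∀ Q, φ.toRingHom.IsIntegralElem (π Q) := by
    intro Q
    induction Q using MvPolynomial.induction_on with
    | C a =>
      have h1 : π (C a) = φ.toRingHom (C a) := by
        change π (algebraMap ℂ _ a) = φ (algebraMap ℂ _ a)
        rw [AlgHom.commutes, AlgHom.commutes]
      rw [h1]
      exact RingHom.isIntegralElem_map _
    | add p q hp hq =>
      rw [map_add]
      exact RingHom.IsIntegralElem.add _ hp hq
    | mul_X p i hp =>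
      rw [map_mul]
      refine RingHom.IsIntegralElem.mul _ hp ?_
      obtain ⟨α, β, hαβ⟩ := diag i
      refine ⟨Polynomial.X ^ 2 - Polynomial.C (C α * X 0 ^ 2 + C β * X 1 ^ 2),
        Polynomial.monic_X_pow_sub_C _ two_ne_zero, ?_⟩
      rw [Polynomial.eval₂_sub, Polynomial.eval₂_pow, Polynomial.eval₂_X, Polynomial.eval₂_C,
        sub_eq_zero]
      refine Subtype.ext ?_
      change (aeval x (X i)) ^ 2 = ((φ (C α * X 0 ^ 2 + C β * X 1 ^ 2) :
        (aeval x : MvPolynomial (Fin 12) ℂ →ₐ[ℂ] R).range) : R)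
      rw [hφv]
      simp only [aeval_X, map_add, map_mul, map_pow, aeval_C, Matrix.cons_val_zero,
        Matrix.cons_val_one]
      rw [hαβ, Algebra.smul_def, Algebra.smul_def]
  have hne : π P ≠ 0 := by
    intro h0
    exact hP (by rw [← hπv, h0]; rfl)
  obtain ⟨p, hpm, hp⟩ := hint P
  have hp' : (p.map φ.toRingHom).eval₂ (RingHom.id _) (π P) = 0 := by
    rw [Polynomial.eval₂_map, RingHom.id_comp]
    exact hp
  obtain ⟨i, hi0, hi⟩ := Ideal.exists_coeff_ne_zero_mem_comap_of_root_mem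
    (I := Ideal.span {π P}) hne (Ideal.mem_span_singleton_self _)
    ((hpm.map φ.toRingHom).ne_zero) hp'
  rw [Ideal.mem_comap, RingHom.id_apply, Ideal.mem_span_singleton] at hi
  obtain ⟨c', hc'⟩ := hi
  obtain ⟨P', rfl⟩ := hπ c'
  rw [Polynomial.coeff_map] at hc' hi0
  refine ⟨P', p.coeff i, ?_, ?_⟩
  · rw [← hφv, ← hπv, ← hπv]
    exact (congrArg Subtype.val hc').symm
  · intro h0
    refine hi0 (Subtype.ext ?_)
    change (φ (p.coeff i) : R) = 0
    rw [hφv]
    exact h0

/-- The components of a relation are relations. -/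
theorem INJ_comp {g d : ℕ} (Y : Pair g d) (ξ : Fin 12 → Y.R) (hξ : ∀ i, ξ i ∈ Y.gr 1)
    (P : MvPolynomial (Fin 12) ℂ) (hP : aeval ξ P = 0) (l : ℕ) :
    aeval ξ (homogeneousComponent l P) = 0 := by
  have hm : ∀ k, aeval ξ (homogeneousComponent k P) ∈ Y.gr k := fun k => by
    have := aeval_mem Y.gr hξ (homogeneousComponent_isHomogeneous k P)
    rwa [mul_one] at this
  rcases Nat.lt_or_ge P.totalDegree l with h | h
  · rw [homogeneousComponent_eq_zero _ _ h, map_zero]
  · have h1 := congrArg (GradedAlgebra.proj Y.gr l) hP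
    rw [← sum_homogeneousComponent P, map_sum, map_sum, map_zero,
      Finset.sum_eq_single l] at h1
    · rwa [GradedAlgebra.proj_apply, DirectSum.decompose_of_mem_same Y.gr (hm l)] at h1
    · intro k _ hk
      rw [GradedAlgebra.proj_apply, DirectSum.decompose_of_mem_ne Y.gr (hm k) hk]
    · intro hl
      rw [Finset.mem_range, not_lt] at hl
      omega

theorem st_INJ : ST_INJ := by
  intro g d X E Y ξ hξ1 hξ hrel
  have hback : ∀ P : MvPolynomial (Fin 12) ℂ, aeval E.x P = 0 → aeval ξ P = 0 := by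
    intro P hP
    rw [← sum_homogeneousComponent P, map_sum]
    exact Finset.sum_eq_zero fun l _ => hrel l _ (homogeneousComponent_isHomogeneous l P)
      (INJ_comp X E.x E.x_mem P hP l)
  intro P
  refine ⟨fun hP => ?_, hback P⟩
  by_contra hne
  obtain ⟨P', s, hs, hs0⟩ := INJ_mult E.x E.diag P hne
  let ι : Fin 2 → Fin 12 := ![0, 1]
  have hι : ∀ {T : Type} [CommRing T] [Algebra ℂ T] (y : Fin 12 → T) (s : MvPolynomial (Fin 2) ℂ),
      aeval y (rename ι s) = aeval ![y 0, y 1] s := by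
    intro T _ _ y s
    rw [aeval_rename]
    have h0 : y ∘ ι = ![y 0, y 1] := by
      funext i
      fin_cases i <;> rfl
    rw [h0]
  -- the binary form vanishes at `ξ`
  have h1 : aeval ξ (P * P' - rename ι s) = 0 := by
    refine hback _ ?_
    rw [map_sub, map_mul, hs, hι, sub_self]
  have h2 : aeval ξ (rename ι s) = 0 := by
    rw [map_sub, map_mul, hP, zero_mul, zero_sub, neg_eq_zero] at h1
    exact h1
  -- components
  have h3 : ∀ l, aeval ![ξ 0, ξ 1] (homogeneousComponent l s) = 0 := by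
    intro l
    rw [← hι, rename_homogeneousComponent]
    exact INJ_comp Y ξ hξ1 _ h2 l
  have hx0 : E.x 0 ≠ 0 := E.x_ind.ne_zero 0
  have hind : LinearIndependent ℂ ![ξ 0, ξ 1] := by
    have h4 : ![ξ 0, ξ 1] = ξ ∘ ι := by
      funext i
      fin_cases i <;> rfl
    rw [h4]
    refine hξ.comp ι ?_
    intro i j hij
    fin_cases i <;> fin_cases j <;> simp_all [ι]
  refine hs0 ?_
  rw [← sum_homogeneousComponent s, map_sum]
  refine Finset.sum_eq_zero fun l _ => ?_
  exact INJ_binary ![E.x 0, E.x 1] ![ξ 0, ξ 1] hx0 hind l _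
    (homogeneousComponent_isHomogeneous l s) (h3 l)

end Pool.Agent.Helper41.RG
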