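import Pool.Agent.Helper67.RG.GBasic

/-! # Module KRULL: a subvariety over which the quadratic relations are constant -/

open Pool.Agent.Helper67.RG MvPolynomial

namespace Pool.Agent.Helper41.RG

theorem KRULL_card : Fintype.card (Fin 10 × J) = 780 := by
  rw [Fintype.card_prod, Fintype.card_fin]
  have : Fintype.card J = 78 := by decide +kernel
  rw [this]

theorem KRULL_graded {g d : ℕ} {A : Type} [CommRing A] [Algebra ℂ A] (F : Family g d A)
    (q : Ideal A) (m : ℕ) (x : F.R) (hx : x ∈ F.gr m)
    (hq : x ∈ q • (⊤ : Submodule A F.R)) : x ∈ q • F.gr m := by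
  have key : ∀ z ∈ q • (⊤ : Submodule A F.R), GradedAlgebra.proj F.gr m z ∈ q • F.gr m := by
    intro z hz
    refine Submodule.smul_induction_on hz (fun a ha r _ => ?_) (fun z z' h h' => ?_)
    · rw [map_smul]
      refine Submodule.smul_mem_smul ha ?_
      rw [GradedAlgebra.proj_apply]
      exact SetLike.coe_mem _
    · rw [map_add]
      exact Submodule.add_mem _ h h'
  have h1 := key x hq
  rwa [GradedAlgebra.proj_apply, DirectSum.decompose_of_mem_same F.gr hx] at h1

theorem st_KRULL : ST_KRULL := by
  classical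
  rintro g d X E A _ _ _ _ F b0 S ⟨s⟩ hht
  have hN : IsNoetherianRing A := Algebra.FiniteType.isNoetherianRing ℂ A
  let gen : Fin 10 × J → A := fun p => s.θ p.1 p.2 - algebraMap ℂ A (E.q p.1 p.2)
  have hI : Ideal.span ((Finset.univ.image gen : Finset A) : Set A) ≤ RingHom.ker b0 := by
    rw [Ideal.span_le]
    intro a ha
    rw [Finset.mem_coe, Finset.mem_image] at ha
    obtain ⟨p, _, rfl⟩ := ha
    change b0 (s.θ p.1 p.2 - algebraMap ℂ A (E.q p.1 p.2)) = 0
    rw [map_sub, s.θ0, AlgHom.commutes]
    simp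
  have hker : (RingHom.ker b0).IsPrime := RingHom.ker_isPrime b0
  obtain ⟨q, hq, hqb⟩ := Ideal.exists_minimalPrimes_le hI
  have hqp : q.IsPrime := hq.1.1
  have hqh : q.height ≤ (780 : ℕ∞) := by
    refine (Ideal.height_le_card_of_mem_minimalPrimes_span_finset hq).trans ?_
    have h1 : (Finset.univ.image gen).card ≤ 780 := by
      refine Finset.card_image_le.trans ?_
      rw [Finset.card_univ, KRULL_card]
    exact_mod_cast h1
  have hlt : q < RingHom.ker b0 := by
    refine lt_of_le_of_ne hqb fun h => ?_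
    rw [← h] at hht
    exact absurd hqh (not_le.mpr hht)
  have hgen : ∀ p, gen p ∈ q := fun p => hq.1.2 (Ideal.subset_span (by
    rw [Finset.mem_coe]
    exact Finset.mem_image_of_mem gen (Finset.mem_univ p)))
  refine ⟨{ s.toSec with
    q := q
    prime := hqp
    lt := hlt
    key := fun l P hP hP0 => ?_ }⟩
  refine KRULL_graded F q _ _ (ev_mem F s.hy hP) ?_
  -- the values of the quadrics
  have hquad : ∀ j, ev F s.y (quad (E.q j)) ∈ q • (⊤ : Submodule A F.R) := by
    intro j
    have h1 : ev F s.y (quad (E.q j)) =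
        -∑ p : J, gen (j, p) • (s.y p.1.1 * s.y p.1.2) := by
      have h2 : ev F s.y (quad (E.q j)) = ∑ p : J, algebraMap A F.R (algebraMap ℂ A (E.q j p)) *
          (s.y p.1.1 * s.y p.1.2) := by
        rw [quad, ev, eval₂_sum]
        refine Finset.sum_congr rfl fun p _ => ?_
        rw [eval₂_mul, eval₂_mul, eval₂_C, eval₂_X, eval₂_X]
        rfl
      have h3 := s.rel j
      have h4 : ∑ p : J, gen (j, p) • (s.y p.1.1 * s.y p.1.2) =
          ∑ p : J, algebraMap A F.R (s.θ j p) * (s.y p.1.1 * s.y p.1.2) -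
          ∑ p : J, algebraMap A F.R (algebraMap ℂ A (E.q j p)) * (s.y p.1.1 * s.y p.1.2) := by
        rw [← Finset.sum_sub_distrib]
        refine Finset.sum_congr rfl fun p _ => ?_
        rw [Algebra.smul_def, map_sub, sub_mul]
      rw [h4, h3, h2, zero_sub, neg_neg]
    rw [h1]
    exact Submodule.neg_mem _ (Submodule.sum_mem _ fun p _ =>
      Submodule.smul_mem_smul (hgen (j, p)) trivial)
  have hspan : ∀ Q ∈ Ideal.span (Set.range fun j => quad (E.q j)),
      ev F s.y Q ∈ q • (⊤ : Submodule A F.R) := by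
    intro Q hQ
    refine Submodule.span_induction ?_ ?_ ?_ ?_ hQ
    · rintro _ ⟨j, rfl⟩
      exact hquad j
    · have h0 : ev F s.y 0 = 0 := eval₂_zero _ _
      rw [h0]
      exact Submodule.zero_mem _
    · intro P P' _ _ h h'
      rw [ev_add]
      exact Submodule.add_mem _ h h'
    · intro a P _ h
      rw [smul_eq_mul, ev_mul]
      have hm : ∀ (c z : F.R), z ∈ q • (⊤ : Submodule A F.R) →
          c * z ∈ q • (⊤ : Submodule A F.R) := by
        intro c z hz
        refine Submodule.smul_induction_on hz (fun a ha r _ => ?_) (fun z z' h h' => ?_)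
        · rw [mul_smul_comm]
          exact Submodule.smul_mem_smul ha trivial
        · rw [mul_add]
          exact Submodule.add_mem _ h h'
      exact hm _ _ h
  exact hspan P (E.ker P hP0)

end Pool.Agent.Helper41.RG
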