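import Pool.Agent.Helper67.RG.GBasic

/-! # Module SURJ: a graded embedding of the section rings is an isomorphism -/

open Pool.Agent.Helper67.RG MvPolynomial

namespace Pool.Agent.Helper41.RG

theorem SURJ_proj {g d : ℕ} (X Y : Pair g d) (φ : X.R →ₐ[ℂ] Y.R)
    (hφ : ∀ n, ∀ z ∈ X.gr n, φ z ∈ Y.gr n) (k : ℕ) (x : X.R) :
    φ (GradedAlgebra.proj X.gr k x) = GradedAlgebra.proj Y.gr k (φ x) := by
  induction x using DirectSum.Decomposition.inductionOn X.gr with
  | zero => simp only [map_zero]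
  | @homogeneous i m =>
    rw [GradedAlgebra.proj_apply, GradedAlgebra.proj_apply]
    by_cases h : i = k
    · subst h
      rw [DirectSum.decompose_of_mem_same X.gr m.2,
        DirectSum.decompose_of_mem_same Y.gr (hφ i _ m.2)]
    · rw [DirectSum.decompose_of_mem_ne X.gr m.2 h,
        DirectSum.decompose_of_mem_ne Y.gr (hφ i _ m.2) h, map_zero]
  | add m m' h h' => rw [map_add, map_add, h, h', map_add, map_add]

theorem SURJ_big {g d : ℕ} (X Y : Pair g d) (φ : X.R →ₐ[ℂ] Y.R)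
    (hinj : Function.Injective φ) (hφ : ∀ n, ∀ z ∈ X.gr n, φ z ∈ Y.gr n) (hd : 1 ≤ d) :
    ∃ N : ℕ, ∀ n, N ≤ n → ∀ y ∈ Y.gr n, ∃ x ∈ X.gr n, φ x = y := by
  obtain ⟨N1, h1⟩ := X.hilb
  obtain ⟨N2, h2⟩ := Y.hilb
  refine ⟨N1 + N2 + g, fun n hn y hy => ?_⟩
  have e1 := h1 n (by omega)
  have e2 := h2 n (by omega)
  have hpos : 0 < Module.finrank ℂ (X.gr n) := by
    have h3 : (0 : ℤ) < (Module.finrank ℂ (X.gr n) : ℤ) := by
      rw [e1]
      have h4 : (n : ℤ) * 1 ≤ n * d := by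
        refine mul_le_mul_of_nonneg_left ?_ (Int.natCast_nonneg n)
        exact_mod_cast hd
      have h5 : (g : ℤ) ≤ n := by exact_mod_cast (by omega : g ≤ n)
      linarith
    exact_mod_cast h3
  have heq : Module.finrank ℂ (X.gr n) = Module.finrank ℂ (Y.gr n) := by
    have : (Module.finrank ℂ (X.gr n) : ℤ) = Module.finrank ℂ (Y.gr n) := by rw [e1, e2]
    exact_mod_cast this
  have hfX : Module.Finite ℂ (X.gr n) := Module.finite_of_finrank_pos hpos
  have hfY : Module.Finite ℂ (Y.gr n) := Module.finite_of_finrank_pos (heq ▸ hpos)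
  let f : X.gr n →ₗ[ℂ] Y.gr n := φ.toLinearMap.restrict (hφ n)
  have hf : Function.Injective f := by
    intro a b hab
    refine Subtype.ext (hinj ?_)
    exact congrArg Subtype.val hab
  have hfs : Function.Surjective f :=
    (LinearMap.injective_iff_surjective_of_finrank_eq_finrank heq).mp hf
  obtain ⟨x, hx⟩ := hfs ⟨y, hy⟩
  exact ⟨x, x.2, congrArg Subtype.val hx⟩

theorem st_SURJ : ST_SURJ := by
  intro g d hd X E Y φ hinj hφ
  obtain ⟨N, hN⟩ := SURJ_big X Y φ hinj hφ hd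
  have hx0 : E.x 0 ≠ 0 := E.x_ind.ne_zero 0
  have hhom : ∀ j, ∀ z ∈ Y.gr j, ∃ c, φ c = z := by
    intro j z hz
    have hm : ∀ i : Fin 12, z * φ (E.x i) ^ N ∈ Y.gr (j + N) := by
      intro i
      refine SetLike.mul_mem_graded hz ?_
      have := SetLike.pow_mem_graded N (hφ 1 _ (E.x_mem i))
      rwa [smul_eq_mul, mul_one] at this
    obtain ⟨c0, _, h0⟩ := hN (j + N) (by omega) _ (hm 0)
    obtain ⟨c1, _, h1⟩ := hN (j + N) (by omega) _ (hm 1)
    have h2 : c0 * E.x 1 ^ N = E.x 0 ^ N * c1 := by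
      refine hinj ?_
      rw [map_mul, map_mul, h0, h1, map_pow, map_pow]
      ring
    obtain ⟨c, hc⟩ := E.good c0 (E.x 0 ^ N) N (pow_ne_zero _ hx0) (Dvd.intro_left _ rfl)
      ⟨c1, h2⟩
    refine ⟨c, ?_⟩
    have h3 : φ (E.x 0) ^ N ≠ 0 := by
      rw [← map_pow]
      intro h
      exact pow_ne_zero N hx0 (hinj (h.trans (map_zero φ).symm))
    refine mul_right_cancel₀ h3 ?_
    rw [← h0, hc, map_mul, map_pow, mul_comm]
  have hsurj : Function.Surjective φ := by
    intro y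
    induction y using DirectSum.Decomposition.inductionOn Y.gr with
    | zero => exact ⟨0, map_zero φ⟩
    | @homogeneous i m => exact hhom i m m.2
    | add m m' h h' =>
      obtain ⟨a, ha⟩ := h
      obtain ⟨b, hb⟩ := h'
      exact ⟨a + b, by rw [map_add, ha, hb]⟩
  let e := AlgEquiv.ofBijective φ ⟨hinj, hsurj⟩
  refine ⟨e.symm, fun n y => ?_⟩
  obtain ⟨x, rfl⟩ := hsurj y
  have hex : e.symm (φ x) = x := e.symm_apply_apply x
  rw [hex]
  constructor
  · intro h
    have h1 : φ (GradedAlgebra.proj X.gr n x) = φ x := by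
      rw [SURJ_proj X Y φ hφ, GradedAlgebra.proj_apply, DirectSum.decompose_of_mem_same Y.gr h]
    rw [← hinj h1, GradedAlgebra.proj_apply]
    exact SetLike.coe_mem _
  · exact hφ n x

end Pool.Agent.Helper41.RG
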